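import Pool.Agent.Helper69.ES.DefsR
import Pool.Agent.Helper22.SI.M4S
import Pool.Agent.Helper22.SI.U4S

/-!
# ES with a rate: `F_k (1 + |pss|)` at scale `x^(1/2)` is square integrable over the window `[x, 2x]`
-/

open MeasureTheory Set Filter Topology
open Pool.Agent.Helper57.Zeta Pool.Agent.Helper57.PC Pool.Agent.Helper57.LH Pool.Agent.Helper78.SG
open Pool.Agent.Helper4.SH Pool.Agent.Helper69.PP Pool.Agent.Helper22.SI
open Pool.Agent.Helper69.SM (wt)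
open Pool.Agent.Helper69 Pool.Agent.Helper69.ES

namespace Pool.Agent.Helper53.ES

/-- the parameters at scale `x` -/
noncomputable def dbl (P : PQ.Par) : PQ.Par where
  c := P.c
  δ := P.δ / 2
  e := P.e
  G := 2 * P.G
  hc := P.hc
  hc1 := P.hc1
  hδ := by have := P.hδ; linarith
  hδ1 := by have := P.hδ1; linarith [P.hδ]
  he := P.he
  he1 := P.he1
  hG0 := by have := P.hG0; omega
  hG := by
    have hδ := P.hδ
    have hG : (0:ℝ) < P.G := by exact_mod_cast P.hG0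
    have h1 : ⌈1 / (P.δ / 2)⌉₊ ≤ 2 * ⌈1 / P.δ⌉₊ := by
      rw [Nat.ceil_le]
      push_cast
      have h2 := Nat.le_ceil (1 / P.δ)
      have h3 : 1 / (P.δ / 2) = 2 * (1 / P.δ) := by field_simp
      rw [h3]
      linarith
    have h1' : (⌈1 / (P.δ / 2)⌉₊ : ℝ) ≤ 2 * ⌈1 / P.δ⌉₊ := by exact_mod_cast h1
    have h2 := P.hG
    have h3 : (2 * (⌈1 / (P.δ / 2)⌉₊ : ℝ) + 2) / ((2 * P.G : ℕ) : ℝ) ≤ (2 * (⌈1 / P.δ⌉₊ : ℝ) + 2) / P.G := by
      push_cast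
      rw [div_le_div_iff₀ (by positivity) hG]
      nlinarith
    exact h3.trans h2

lemma log_half {x : ℝ} (hx : 1 < x) : Real.log (x ^ ((1 : ℝ) / 2)) = Real.log x / 2 := by
  rw [Real.log_rpow (by linarith)]
  ring

lemma half_le {x : ℝ} (hx : 1 < x) : x ^ ((1 : ℝ) / 2) ≤ x := by
  calc x ^ ((1 : ℝ) / 2) ≤ x ^ (1 : ℝ) := Real.rpow_le_rpow_of_exponent_le hx.le (by norm_num)
    _ = x := Real.rpow_one x

lemma ce_half (G : ℕ) {x : ℝ} (hx : 1 < x) (p : ℕ) : ce G (x ^ ((1 : ℝ) / 2)) p = ce (2 * G) x p := by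
  unfold ce
  rw [log_half hx]
  congr 1
  push_cast
  have : Real.log x ≠ 0 := (Real.log_pos hx).ne'
  field_simp

lemma Rl_le (P : PQ.Par) {x : ℝ} (hx : 1 < x) (t : ℝ) (l : ℕ) :
    PQ.Rl P (x ^ ((1 : ℝ) / 2)) t l ≤ PQ.Rl (dbl P) x t l := by
  set U := x ^ ((1 : ℝ) / 2) with hU
  have hU1 : 1 < U := Real.one_lt_rpow hx (by norm_num)
  have hLU : 0 < Real.log U := Real.log_pos hU1
  have hG : (0:ℝ) < P.G := by exact_mod_cast P.hG0
  have hpow : U ^ P.δ = x ^ (P.δ / 2) := by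
    rw [hU, ← Real.rpow_mul (by linarith)]
    congr 1
    ring
  rcases le_or_gt l P.G with hl | hl
  · have h1 : PQ.PC P l U = PQ.PC (dbl P) l x := by
      unfold PQ.PC
      ext p
      simp only [Finset.mem_filter]
      have hce : ce (dbl P).G x p = ce P.G U p := (ce_half P.G hx p).symm
      have hδ' : x ^ (dbl P).δ = U ^ P.δ := hpow.symm
      rw [hce, hδ']
      constructor
      · rintro ⟨h2, h3⟩
        refine ⟨?_, h3⟩
        unfold PP at h2 ⊢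
        rw [Finset.mem_filter, Finset.mem_range] at h2 ⊢
        exact ⟨lt_of_lt_of_le h2.1 (Nat.succ_le_succ (Nat.floor_le_floor (half_le hx))), h2.2⟩
      · rintro ⟨h2, h3, h4⟩
        refine ⟨?_, h3, h4⟩
        unfold PP at h2 ⊢
        rw [Finset.mem_filter, Finset.mem_range] at h2 ⊢
        refine ⟨Nat.lt_succ_of_le (Nat.le_floor ?_), h2.2⟩
        have hp0 : (0:ℝ) < p := by exact_mod_cast h2.2.pos
        unfold ce at h4
        have h5 := Nat.le_ceil (P.G * Real.log p / Real.log U)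
        rw [h4] at h5
        have h6 : (l : ℝ) ≤ P.G := by exact_mod_cast hl
        have h7 : P.G * Real.log p / Real.log U ≤ P.G := h5.trans h6
        rw [div_le_iff₀ hLU] at h7
        have h8 : Real.log p ≤ Real.log U := le_of_mul_le_mul_left h7 hG
        exact (Real.log_le_log_iff hp0 (by linarith)).1 h8
    unfold PQ.Rl PQ.Pl
    rw [h1]
  · have h1 : PQ.PC P l U = ∅ := by
      unfold PQ.PC
      rw [Finset.filter_eq_empty_iff]
      rintro p hp ⟨_, h4⟩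
      unfold PP at hp
      rw [Finset.mem_filter, Finset.mem_range] at hp
      have hp0 : (0:ℝ) < p := by exact_mod_cast hp.2.pos
      have hpU : (p : ℝ) ≤ U := (Nat.le_floor_iff (by linarith)).1 (Nat.le_of_lt_succ hp.1)
      have h5 : ce P.G U p ≤ P.G := by
        unfold ce
        rw [Nat.ceil_le, div_le_iff₀ hLU]
        exact mul_le_mul_of_nonneg_left (Real.log_le_log hp0 hpU) hG.le
      omega
    unfold PQ.Rl PQ.Pl
    rw [h1]
    have h2 : DP ∅ (fun p => 1 / Real.sqrt p) t = 0 := by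
      unfold DP
      simp
    rw [h2, norm_zero, add_zero]
    have := norm_nonneg (DP (PQ.PC (dbl P) l x) (fun p => 1 / Real.sqrt p) t)
    linarith

lemma ww_half {x : ℝ} (hx : 1 < x) (n : ℕ) : ww (x ^ ((1 : ℝ) / 2)) n = 2 * ww x n := by
  unfold ww
  rw [log_half hx]
  have h1 : Real.log x ≠ 0 := (Real.log_pos hx).ne'
  rcases eq_or_ne (Real.sqrt n) 0 with h | h
  · rw [h]; simp
  · field_simp

lemma ww_nn {x : ℝ} (hx : 1 < x) (n : ℕ) : 0 ≤ ww x n := by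
  unfold ww
  have h1 : 0 < Real.log x := Real.log_pos hx
  have h2 : 0 ≤ Real.log n := Real.log_natCast_nonneg n
  positivity

lemma adm_conv {K : ℝ} (hK : 0 ≤ K) {d : ℕ} {θ x : ℝ} (hx : 1 < x) {S : Finset ℕ} {c : ℕ → ℝ}
    (h : Adm K d θ (x ^ ((1 : ℝ) / 2)) S c) : Adm (K * 2 ^ d) d (θ / 2) x S c := by
  intro n hn
  obtain ⟨h1, h2, h3, h4, h5⟩ := h n hn
  refine ⟨h1, h2, fun p hp => ?_, ?_, ?_⟩
  · have h6 := h3 p hp
    unfold PP at h6 ⊢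
    rw [Finset.mem_filter, Finset.mem_range] at h6 ⊢
    exact ⟨lt_of_lt_of_le h6.1 (Nat.succ_le_succ (Nat.floor_le_floor (half_le hx))), h6.2⟩
  · refine h4.trans ?_
    have key : ∀ l : List ℕ, (l.map (ww (x ^ ((1 : ℝ) / 2)))).prod = 2 ^ l.length * (l.map (ww x)).prod ∧
        0 ≤ (l.map (ww x)).prod := by
      intro l
      induction l with
      | nil => simp
      | cons a l ih =>
        rw [List.map_cons, List.prod_cons, List.map_cons, List.prod_cons, ih.1, ww_half hx, List.length_cons, pow_succ]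
        exact ⟨by ring, mul_nonneg (ww_nn hx a) ih.2⟩
    have h6 : WW (x ^ ((1 : ℝ) / 2)) n = 2 ^ n.primeFactorsList.length * WW x n := (key _).1
    have h7 : 0 ≤ WW x n := (key _).2
    rw [h6]
    have h8 : (2:ℝ) ^ n.primeFactorsList.length ≤ 2 ^ d := pow_le_pow_right₀ (by norm_num) h2
    calc K * (2 ^ n.primeFactorsList.length * WW x n) ≤ K * (2 ^ d * WW x n) :=
          mul_le_mul_of_nonneg_left (mul_le_mul_of_nonneg_right h8 h7) hK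
      _ = K * 2 ^ d * WW x n := by ring
  · refine h5.trans (le_of_eq ?_)
    rw [← Real.rpow_mul (by linarith)]
    congr 1
    ring

/-- the total length -/
lemma len_le (P : PQ.Par) {k : ℕ} {z : (Finset ℕ × Finset ℕ) × (Finset ℕ × Finset ℕ)} (hz : z ∈ PQ.QT P k) {θ : ℝ}
    (hθ : θ ≤ (k + 2 * P.K) / P.G + P.e / 4) :
    ((US z.1.1 + US z.1.2 + (US z.2.1 + US z.2.2) : ℕ) : ℝ) / ((2 * P.G : ℕ) : ℝ) + θ / 2 ≤ 1 - P.e := by
  classical
  have hz' : (((PQ.TA P z.1.1 ∧ PQ.TB P z.1.2) ∧ (PQ.TA P z.2.1 ∧ PQ.TB P z.2.2)) ∧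
      (((US z.1.1 : ℤ) - US z.1.2) - ((US z.2.1 : ℤ) - US z.2.2)).natAbs = k) := by
    unfold PQ.QT at hz
    simp only [Finset.mem_filter, Finset.mem_product] at hz
    exact ⟨⟨hz.1.1.2, hz.1.2.2⟩, hz.2⟩
  obtain ⟨⟨⟨hA1, hB1⟩, hA2, hB2⟩, hk⟩ := hz'
  have hG : (0:ℝ) < P.G := by exact_mod_cast P.hG0
  have he := P.he
  have b1 := PQ.TB_size hB1
  have b2 := PQ.TB_size hB2
  have a1 : (US z.1.1 : ℝ) ≤ (1 / 2 - P.e) * P.G := hA1
  have a2 : (US z.2.1 : ℝ) ≤ (1 / 2 - P.e) * P.G := hA2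
  have hKG : 2 * (P.K : ℝ) ≤ P.e / 2 * P.G := by
    have h1 := P.hG
    rw [div_le_iff₀ hG] at h1
    have h2 : P.K = ⌈1 / P.δ⌉₊ := rfl
    rw [h2]
    linarith
  have hkk : ((US z.1.1 + US z.1.2 + (US z.2.1 + US z.2.2) : ℕ) : ℝ) + k ≤
      2 * ((1 / 2 - P.e) * P.G + (2099 / 4200) * ((1 - P.e) * P.G)) := by
    rcases Int.natAbs_eq ((((US z.1.1 : ℤ) - US z.1.2) - ((US z.2.1 : ℤ) - US z.2.2))) with h1 | h1
    · rw [hk] at h1
      have h2 : (k : ℝ) = ((US z.1.1 : ℝ) - US z.1.2) - ((US z.2.1 : ℝ) - US z.2.2) := by exact_mod_cast h1.symm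
      push_cast
      linarith
    · rw [hk] at h1
      have h2 : ((US z.1.1 : ℝ) - US z.1.2) - ((US z.2.1 : ℝ) - US z.2.2) = -(k : ℝ) := by exact_mod_cast h1
      push_cast
      linarith
  have h3 : ((US z.1.1 + US z.1.2 + (US z.2.1 + US z.2.2) : ℕ) : ℝ) / ((2 * P.G : ℕ) : ℝ) + θ / 2 ≤
      ((US z.1.1 + US z.1.2 + (US z.2.1 + US z.2.2) : ℕ) : ℝ) / ((2 * P.G : ℕ) : ℝ) +
        ((k + 2 * P.K) / P.G + P.e / 4) / 2 := by linarith
  refine h3.trans ?_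
  have h4 : ((US z.1.1 + US z.1.2 + (US z.2.1 + US z.2.2) : ℕ) : ℝ) / ((2 * P.G : ℕ) : ℝ) +
        ((k + 2 * P.K) / P.G + P.e / 4) / 2 =
      (((US z.1.1 + US z.1.2 + (US z.2.1 + US z.2.2) : ℕ) : ℝ) + k + 2 * P.K) / (2 * P.G) + P.e / 8 := by
    rw [Nat.cast_mul, Nat.cast_ofNat]
    field_simp
    ring
  rw [h4]
  have h5 : (((US z.1.1 + US z.1.2 + (US z.2.1 + US z.2.2) : ℕ) : ℝ) + k + 2 * P.K) / (2 * P.G) ≤ 1 - P.e - P.e / 8 := by
    rw [div_le_iff₀ (by positivity)]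
    nlinarith [mul_pos he hG]
  linarith

/-- mean square of the pieces -/
lemma l2z (P : PQ.Par) (g : TF) (hg : GoodG g) {k : ℕ} {z : (Finset ℕ × Finset ℕ) × (Finset ℕ × Finset ℕ)}
    (hz : z ∈ PQ.QT P k) (Kx : ℝ) (hKx : 0 ≤ Kx) (d : ℕ) {θ : ℝ} (hθ : θ ≤ (k + 2 * P.K) / P.G + P.e / 4) :
    ∃ C : ℝ, 0 < C ∧ ∀ᶠ x : ℝ in atTop, ∀ (S : Finset ℕ) (c : ℕ → ℝ), Adm Kx d θ (x ^ ((1 : ℝ) / 2)) S c →
      ∫ t, wt g.h x x t * (PQ.U4.RR P (x ^ ((1 : ℝ) / 2)) t z * ‖DP S c t‖) ^ 2 ≤ C * x := by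
  obtain ⟨hth, hg0, -, -⟩ := hg
  set s : List ℕ := z.1.1.toList ++ z.1.2.toList ++ (z.2.1.toList ++ z.2.2.toList) with hs
  have hsum : s.sum = US z.1.1 + US z.1.2 + (US z.2.1 + US z.2.2) := by
    rw [hs, List.sum_append, List.sum_append, List.sum_append, Finset.sum_toList, Finset.sum_toList, Finset.sum_toList,
      Finset.sum_toList]
    rfl
  obtain ⟨C, hC, hev⟩ := PQ.SI.R_sqS (dbl P) g hth hg0 s (Kx * 2 ^ d) (by positivity) d (θ := θ / 2) (e1 := P.e) P.he (by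
    rw [hsum]
    exact len_le P hz hθ)
  refine ⟨C, hC, ?_⟩
  filter_upwards [hev, eventually_gt_atTop 1] with x h1 hx S c hA
  refine le_trans ?_ (h1 x S c (adm_conv hKx hx hA))
  have hprod : ∀ t, PQ.U4.RR (dbl P) x t z = (s.map (PQ.Rl (dbl P) x t)).prod := by
    intro t
    rw [hs, List.map_append, List.map_append, List.map_append, List.prod_append, List.prod_append, List.prod_append,
      Finset.prod_map_toList, Finset.prod_map_toList, Finset.prod_map_toList, Finset.prod_map_toList]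
    rfl
  have hle : ∀ t, PQ.U4.RR P (x ^ ((1 : ℝ) / 2)) t z ≤ (s.map (PQ.Rl (dbl P) x t)).prod := by
    intro t
    rw [← hprod]
    unfold PQ.U4.RR
    have hp : ∀ τ : Finset ℕ, ∏ l ∈ τ, PQ.Rl P (x ^ ((1 : ℝ) / 2)) t l ≤ ∏ l ∈ τ, PQ.Rl (dbl P) x t l := fun τ =>
      Finset.prod_le_prod (fun l _ => PQ.U4.Rl_nonneg _ _ _ _) fun l _ => Rl_le P hx t l
    have hn : ∀ (Q : PQ.Par) (T : ℝ) (τ : Finset ℕ), 0 ≤ ∏ l ∈ τ, PQ.Rl Q T t l := fun Q T τ =>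
      Finset.prod_nonneg fun l _ => PQ.U4.Rl_nonneg _ _ _ _
    exact mul_le_mul (mul_le_mul (hp _) (hp _) (hn _ _ _) (hn _ _ _)) (mul_le_mul (hp _) (hp _) (hn _ _ _) (hn _ _ _))
      (mul_nonneg (hn _ _ _) (hn _ _ _)) (mul_nonneg (hn _ _ _) (hn _ _ _))
  have hx0 : 0 < x := by linarith
  have hcont : Continuous (fun t => ((s.map (PQ.Rl (dbl P) x t)).prod * ‖DP S c t‖) ^ 2) := by
    have e : (fun t => ((s.map (PQ.Rl (dbl P) x t)).prod * ‖DP S c t‖) ^ 2) =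
        fun t => (PQ.U4.RR (dbl P) x t z * ‖DP S c t‖) ^ 2 := by
      funext t
      rw [hprod]
    rw [e]
    exact ((PQ.U4.RR_cont _ _ _).mul (PQ.U4.DP_cont _ _).norm).pow 2
  refine integral_mono_of_nonneg ?_ (wtI g x hx0 hcont) ?_
  · exact Eventually.of_forall fun t => mul_nonneg (hg0 _) (sq_nonneg _)
  · refine Eventually.of_forall fun t => ?_
    refine mul_le_mul_of_nonneg_left ?_ (hg0 _)
    refine pow_le_pow_left₀ (mul_nonneg (PQ.U4.RR_nonneg _ _ _ _) (norm_nonneg _)) ?_ 2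
    exact mul_le_mul_of_nonneg_right (hle t) (norm_nonneg _)

theorem l2_FK (P : PQ.Par) (g : TF) (hg : GoodG g) {k : ℕ} {f : TF} (hf : PQ.KF P k f) :
    L2W g (fun x t => |PQ.FK P k (x ^ ((1 : ℝ) / 2)) t| * (1 + |pss f.h 2 (x ^ ((1 : ℝ) / 2)) t|)) := by
  classical
  obtain ⟨C0, hC0, hpss⟩ := PQ.pss_le f
  obtain ⟨Kx, hKx, hadm⟩ := PQ.adm_X f
  have hG : (0 : ℝ) < P.G := by exact_mod_cast P.hG0
  have hθ0 : (0 : ℝ) ≤ (k + 2 * P.K) / P.G + P.e / 4 := by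
    have := P.he
    positivity
  have hθ1 : 2 * f.th ≤ (k + 2 * P.K) / P.G + P.e / 4 := by
    have := hf.2
    linarith
  have hFK := PQ.FK_le P k
  have hU : Tendsto (fun x : ℝ => x ^ ((1 : ℝ) / 2)) atTop atTop := tendsto_rpow_atTop (by norm_num)
  have v1 : ∀ z ∈ PQ.QT P k, ∃ C : ℝ, 0 < C ∧ ∀ᶠ x : ℝ in atTop,
      ∫ t, wt g.h x x t * (PQ.U4.RR P (x ^ ((1 : ℝ) / 2)) t z * ‖DP {1} (fun _ => 1) t‖) ^ 2 ≤ C * x := by
    intro z hz
    obtain ⟨C, hC, h⟩ := l2z P g hg hz 1 zero_le_one 0 hθ0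
    refine ⟨C, hC, ?_⟩
    filter_upwards [h, eventually_gt_atTop 1] with x hx hx1
    exact hx {1} (fun _ => 1) (PQ.adm_one (Real.one_lt_rpow hx1 (by norm_num)))
  have v2 : ∀ z ∈ PQ.QT P k, ∃ C : ℝ, 0 < C ∧ ∀ᶠ x : ℝ in atTop,
      ∫ t, wt g.h x x t * (PQ.U4.RR P (x ^ ((1 : ℝ) / 2)) t z *
        ‖DP (PQ.SX f (x ^ ((1 : ℝ) / 2))) (PQ.cX f (x ^ ((1 : ℝ) / 2))) t‖) ^ 2 ≤ C * x := by
    intro z hz
    obtain ⟨C, hC, h⟩ := l2z P g hg hz Kx hKx.le 1 hθ1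
    refine ⟨C, hC, ?_⟩
    filter_upwards [h, eventually_gt_atTop 1] with x hx hx1
    exact hx _ _ (hadm _ (Real.one_lt_rpow hx1 (by norm_num)))
  choose! c1 hc1 hv1 using v1
  choose! c2 hc2 hv2 using v2
  have e1 := (Finset.eventually_all (PQ.QT P k)).2 hv1
  have e2 := (Finset.eventually_all (PQ.QT P k)).2 hv2
  set N : ℝ := ((PQ.QT P k).card : ℝ) with hN
  have hN0 : 0 ≤ N := Nat.cast_nonneg _
  have hs : 0 ≤ ∑ z ∈ PQ.QT P k, (C0 ^ 2 * c1 z + c2 z) :=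
    Finset.sum_nonneg fun z hz => add_nonneg (mul_nonneg (sq_nonneg _) (hc1 z hz).le) (hc2 z hz).le
  refine ⟨2 * N * ∑ z ∈ PQ.QT P k, (C0 ^ 2 * c1 z + c2 z) + 1, by positivity, ?_⟩
  obtain ⟨hth, hg0, -, -⟩ := hg
  filter_upwards [e1, e2, hU.eventually hFK, hU.eventually hpss, eventually_gt_atTop 1] with x h1 h2 h3 h4 hx
  have hx0 : 0 < x := by linarith
  set U := x ^ ((1 : ℝ) / 2) with hUd
  have i1 : ∀ z, Integrable (fun t => wt g.h x x t * (PQ.U4.RR P U t z * ‖DP {1} (fun _ => 1) t‖) ^ 2) :=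
    fun z => wtI g x hx0 (((PQ.U4.RR_cont P U z).mul (PQ.U4.DP_cont _ _).norm).pow 2)
  have i2 : ∀ z, Integrable (fun t => wt g.h x x t * (PQ.U4.RR P U t z * ‖DP (PQ.SX f U) (PQ.cX f U) t‖) ^ 2) :=
    fun z => wtI g x hx0 (((PQ.U4.RR_cont P U z).mul (PQ.U4.DP_cont _ _).norm).pow 2)
  have i3 : ∀ z, Integrable (fun t => C0 ^ 2 * (wt g.h x x t * (PQ.U4.RR P U t z * ‖DP {1} (fun _ => 1) t‖) ^ 2) +
      wt g.h x x t * (PQ.U4.RR P U t z * ‖DP (PQ.SX f U) (PQ.cX f U) t‖) ^ 2) :=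
    fun z => ((i1 z).const_mul _).add (i2 z)
  have hmain : ∫ t, wt g.h x x t * (|PQ.FK P k U t| * (1 + |pss f.h 2 U t|)) ^ 2 ≤
      ∫ t, 2 * N * ∑ z ∈ PQ.QT P k, (C0 ^ 2 * (wt g.h x x t * (PQ.U4.RR P U t z * ‖DP {1} (fun _ => 1) t‖) ^ 2) +
      wt g.h x x t * (PQ.U4.RR P U t z * ‖DP (PQ.SX f U) (PQ.cX f U) t‖) ^ 2) := by
    refine integral_mono_of_nonneg ?_ ((integrable_finsetSum _ fun z _ => i3 z).const_mul _) ?_
    · exact Eventually.of_forall fun t => mul_nonneg (hg0 _) (sq_nonneg _)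
    · refine Eventually.of_forall fun t => ?_
      have hw : 0 ≤ wt g.h x x t := hg0 _
      have h5 : |PQ.FK P k U t| * (1 + |pss f.h 2 U t|) ≤ ∑ z ∈ PQ.QT P k,
          (C0 * (PQ.U4.RR P U t z * ‖DP {1} (fun _ => 1) t‖) + PQ.U4.RR P U t z * ‖DP (PQ.SX f U) (PQ.cX f U) t‖) := by
        have hR : 0 ≤ ∑ z ∈ PQ.QT P k, PQ.U4.RR P U t z := Finset.sum_nonneg fun z _ => PQ.U4.RR_nonneg P U t z
        have h3' : |PQ.FK P k U t| ≤ ∑ z ∈ PQ.QT P k, PQ.U4.RR P U t z := h3 t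
        refine (mul_le_mul h3' (h4 t) (by positivity) hR).trans (le_of_eq ?_)
        rw [Finset.sum_mul]
        refine Finset.sum_congr rfl fun z _ => ?_
        ring
      have h6 : 0 ≤ |PQ.FK P k U t| * (1 + |pss f.h 2 U t|) := by positivity
      have h7 := pow_le_pow_left₀ h6 h5 2
      have h8 := sq_sum_le_card_mul_sum_sq (s := PQ.QT P k) (f := fun z =>
        (C0 * (PQ.U4.RR P U t z * ‖DP {1} (fun _ => 1) t‖) + PQ.U4.RR P U t z * ‖DP (PQ.SX f U) (PQ.cX f U) t‖))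
      have h9 : ∑ z ∈ PQ.QT P k, (C0 * (PQ.U4.RR P U t z * ‖DP {1} (fun _ => 1) t‖) +
          PQ.U4.RR P U t z * ‖DP (PQ.SX f U) (PQ.cX f U) t‖) ^ 2 ≤
          2 * ∑ z ∈ PQ.QT P k, (C0 ^ 2 * (PQ.U4.RR P U t z * ‖DP {1} (fun _ => 1) t‖) ^ 2 +
          (PQ.U4.RR P U t z * ‖DP (PQ.SX f U) (PQ.cX f U) t‖) ^ 2) := by
        rw [Finset.mul_sum]
        refine Finset.sum_le_sum fun z _ => ?_
        nlinarith [sq_nonneg (C0 * (PQ.U4.RR P U t z * ‖DP {1} (fun _ => 1) t‖) -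
          PQ.U4.RR P U t z * ‖DP (PQ.SX f U) (PQ.cX f U) t‖)]
      show wt g.h x x t * (|PQ.FK P k U t| * (1 + |pss f.h 2 U t|)) ^ 2 ≤ _
      calc wt g.h x x t * (|PQ.FK P k U t| * (1 + |pss f.h 2 U t|)) ^ 2
          ≤ wt g.h x x t * (N * (2 * ∑ z ∈ PQ.QT P k, (C0 ^ 2 * (PQ.U4.RR P U t z * ‖DP {1} (fun _ => 1) t‖) ^ 2 +
          (PQ.U4.RR P U t z * ‖DP (PQ.SX f U) (PQ.cX f U) t‖) ^ 2))) := by
            refine mul_le_mul_of_nonneg_left (h7.trans (h8.trans ?_)) hw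
            exact mul_le_mul_of_nonneg_left h9 hN0
        _ = 2 * N * ∑ z ∈ PQ.QT P k, (C0 ^ 2 * (wt g.h x x t * (PQ.U4.RR P U t z * ‖DP {1} (fun _ => 1) t‖) ^ 2) +
      wt g.h x x t * (PQ.U4.RR P U t z * ‖DP (PQ.SX f U) (PQ.cX f U) t‖) ^ 2) := by
            simp only [Finset.mul_sum]
            refine Finset.sum_congr rfl fun z _ => ?_
            ring
  refine hmain.trans ?_
  rw [integral_const_mul, integral_finsetSum _ (fun z _ => i3 z)]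
  have h10 : ∑ z ∈ PQ.QT P k, ∫ t, (C0 ^ 2 * (wt g.h x x t * (PQ.U4.RR P U t z * ‖DP {1} (fun _ => 1) t‖) ^ 2) +
      wt g.h x x t * (PQ.U4.RR P U t z * ‖DP (PQ.SX f U) (PQ.cX f U) t‖) ^ 2) ≤
      (∑ z ∈ PQ.QT P k, (C0 ^ 2 * c1 z + c2 z)) * x := by
    rw [Finset.sum_mul]
    refine Finset.sum_le_sum fun z hz => ?_
    rw [integral_add ((i1 z).const_mul _) (i2 z), integral_const_mul, add_mul, mul_assoc]
    exact add_le_add (mul_le_mul_of_nonneg_left (h1 z hz) (sq_nonneg _)) (h2 z hz)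
  calc 2 * N * ∑ z ∈ PQ.QT P k, ∫ t, (C0 ^ 2 * (wt g.h x x t * (PQ.U4.RR P U t z * ‖DP {1} (fun _ => 1) t‖) ^ 2) +
      wt g.h x x t * (PQ.U4.RR P U t z * ‖DP (PQ.SX f U) (PQ.cX f U) t‖) ^ 2)
      ≤ 2 * N * ((∑ z ∈ PQ.QT P k, (C0 ^ 2 * c1 z + c2 z)) * x) := mul_le_mul_of_nonneg_left h10 (by positivity)
    _ ≤ (2 * N * ∑ z ∈ PQ.QT P k, (C0 ^ 2 * c1 z + c2 z) + 1) * x := by nlinarith

end Pool.Agent.Helper53.ES
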