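import Pool.Agent.Helper69.ES.Defs

/-!
# ES, Z4: the windows of the zeros in clear cells are disjoint and lie in the cells
-/

open MeasureTheory Set Filter Topology
open Pool.Agent.Helper57.Zeta Pool.Agent.Helper57.PC Pool.Agent.Helper57.LH Pool.Agent.Helper78.SG
open Pool.Agent.Helper4.SH Pool.Agent.Helper69.PP Pool.Agent.Helper22.SI
open Pool.Agent.Helper69.SM (wt)
open Pool.Agent.Helper69.ES
open scoped Interval

namespace Pool.Agent.Helper53.ES

theorem upper_cells {c : ℝ} (hc : 0 < c) {F : ℝ → ℝ} (hF : Continuous F) (hF0 : ∀ t, 0 ≤ F t) {K D x : ℝ} (hx : 1 < x)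
    (hK : 0 ≤ K) (hD : Real.pi * c ≤ D) {J : Finset ℕ} (hJ : InW K x J) (hcl : Clear c K x J) :
    ∑ ρ ∈ IS K D x J, (∫ t in ((ρ : ℂ).im - Pool.Agent.Helper69.SM.hw c x)..((ρ : ℂ).im + Pool.Agent.Helper69.SM.hw c x), F t) ≤
      ∫ t in St K 0 x J, F t := by
  classical
  have hL : 0 < Real.log x := Real.log_pos hx
  set h := Pool.Agent.Helper69.SM.hw c x with hh
  have hhe : h = Real.pi * c / Real.log x := rfl
  have hh0 : 0 < h := by rw [hhe]; exact div_pos (mul_pos Real.pi_pos hc) hL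
  have hDh : h ≤ D / Real.log x := by rw [hhe]; exact div_le_div_of_nonneg_right hD hL.le
  have hcell : ∀ ρ ∈ IS K D x J, ∃ j ∈ J, lf K x j + h ≤ (ρ : ℂ).im ∧ (ρ : ℂ).im + h ≤ lf K x (j + 1) := by
    intro ρ hρ
    unfold IS at hρ
    rw [Finset.mem_filter] at hρ
    have h1 := hρ.2
    unfold St at h1
    rw [mem_iUnion₂] at h1
    obtain ⟨j, hj, h2⟩ := h1
    exact ⟨j, hj, by linarith [h2.1], by linarith [h2.2]⟩
  have hsep : ∀ ρ ∈ IS K D x J, ∀ ρ' : ZS, ρ' ≠ ρ → 2 * h < |(ρ : ℂ).im - (ρ' : ℂ).im| := by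
    intro ρ hρ ρ' hne
    obtain ⟨j, hj, h1, h2⟩ := hcell ρ hρ
    have h3 := hcl j hj ρ (by linarith) (by linarith)
    by_contra hcon
    rw [not_lt] at hcon
    apply h3
    right
    refine ⟨ρ', hne, ?_⟩
    rw [div_le_iff₀ (by positivity)]
    calc |(ρ : ℂ).im - (ρ' : ℂ).im| * Real.log x ≤ 2 * h * Real.log x := mul_le_mul_of_nonneg_right hcon hL.le
      _ = c * (2 * Real.pi) := by
        rw [hhe]
        field_simp
  have h1 : ∀ ρ ∈ IS K D x J, (∫ t in ((ρ : ℂ).im - h)..((ρ : ℂ).im + h), F t) =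
      ∫ t in Ioc ((ρ : ℂ).im - h) ((ρ : ℂ).im + h), F t := by
    intro ρ _
    rw [intervalIntegral.integral_of_le (by linarith)]
  rw [Finset.sum_congr rfl h1, ← integral_biUnion_finset]
  · have hcomp : IsCompact (St K 0 x J) := by
      unfold St
      exact J.isCompact_biUnion fun j _ => isCompact_Icc
    refine setIntegral_mono_set (hF.continuousOn.integrableOn_compact hcomp) (ae_of_all _ hF0) (LE.le.eventuallyLE ?_)
    intro t ht
    rw [mem_iUnion₂] at ht
    obtain ⟨ρ, hρ, ht1, ht2⟩ := ht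
    obtain ⟨j, hj, h2, h3⟩ := hcell ρ hρ
    unfold St
    rw [mem_iUnion₂]
    refine ⟨j, hj, ?_, ?_⟩
    · rw [zero_div, add_zero]; linarith
    · rw [zero_div, sub_zero]; linarith
  · intro ρ _
    exact measurableSet_Ioc
  · intro ρ hρ ρ' _ hne
    have h2 := hsep ρ hρ ρ' hne.symm
    rw [Function.onFun, Set.disjoint_left]
    rintro t ⟨a1, a2⟩ ⟨b1, b2⟩
    rw [lt_abs] at h2
    rcases h2 with h2 | h2 <;> linarith
  · intro ρ _
    exact hF.integrableOn_Ioc

end Pool.Agent.Helper53.ES
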